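import Mathlib
import Pool.Agent.Helper76K9.RF.Fin

/-!
# Bounded measurable symplectic forms on simply connected manifolds

`X` is a simply connected closed `d`-manifold.  It has a symplectic structure if and only if it has
a two-form with bounded measurable coefficients (with values in a flat real line bundle if one
likes) which is closed in the sense of distributions and uniformly nondegenerate: near every point
there are an endomorphism `T` and `c > 0` with `σ(v, T v) ≥ c |v|²` almost everywhere.  A continuous
almost complex structure `J` on `X` is tamed by a symplectic form if and only if there is such a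
bounded measurable form which is nonnegative on the complex lines almost everywhere and fails to
tame `J` uniformly only near the points of a set with small components.
-/

set_option autoImplicit false

open scoped Manifold ContDiff

namespace Pool.Agent.Results.MP_2a78db_gt.RoughForms

open Pool.Agent.Y501.SYP Pool.Agent.Helper76K9.RFP

theorem result (d : ℕ) (X : Type) [TopologicalSpace X] [ChartedSpace (ES d) X]
    [IsManifold 𝓘(ℝ, ES d) ∞ X] [CompactSpace X] [T2Space X] [SimplyConnectedSpace X] :
    ((∃ w : Form (ES d) X 2, IsSymplectic w) ↔
      ∃ (ι : Type) (S : RoughTwisted d X ι), S.Nondeg) ∧
    ∀ J : End (ES d) X, IsAlmostComplex J →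
      ((∃ w : Form (ES d) X 2, IsTamingSymplectic w J) ↔
        ∃ (ι : Type) (S : RoughTwisted d X ι), S.WeaklyTames J) :=
  ⟨nondeg_iff, fun J hJ => weak_iff J hJ⟩

end Pool.Agent.Results.MP_2a78db_gt.RoughForms
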